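import Mathlib

set_option autoImplicit false

namespace Pool.Agent.Helper24.Tar

variable {V : Type*} [DecidableEq V] {G : Type*} [AddCommGroup G]

def deg (cs : List (V × V × G)) (x : V) : ℕ :=
  cs.countP (fun c => decide (c.1 = x ∨ c.2.1 = x))

def TOk (tp : V → Option (V × G)) : List V → Prop
  | [] => True
  | d :: l => (∀ p a, tp d = some (p, a) → p ∈ l) ∧ TOk tp l

omit [DecidableEq V] [AddCommGroup G] in
lemma TOk.mem {tp : V → Option (V × G)} {l : List V} (h : TOk tp l) {v p : V} {a : G}
    (hv : v ∈ l) (hp : tp v = some (p, a)) : p ∈ l := by
  induction l with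
  | nil => simp at hv
  | cons d l ih =>
    rcases List.mem_cons.1 hv with rfl | hv
    · exact List.mem_cons_of_mem _ (h.1 _ _ hp)
    · exact List.mem_cons_of_mem _ (ih h.2 hv)

def mv (d e : V) (γ : G) (c : V × V × G) : V × V × G :=
  (if c.1 = d then e else c.1, if c.2.1 = d then e else c.2.1,
    c.2.2 + (if c.2.1 = d then γ else 0) - (if c.1 = d then γ else 0))

lemma mv_ok (d e : V) (γ : G) (hde : d ≠ e) (c : V × V × G) (φ : V → G)
    (h : φ (mv d e γ c).1 - φ (mv d e γ c).2.1 ≠ (mv d e γ c).2.2)
    (hc : c.1 ≠ c.2.1) :
    Function.update φ d (φ e + γ) c.1 - Function.update φ d (φ e + γ) c.2.1 ≠ c.2.2 := by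
  obtain ⟨u, v, b⟩ := c
  simp only [mv] at h hc ⊢
  by_cases hu : u = d
  · subst hu
    have hv : v ≠ u := fun h => hc h.symm
    simp only [hv, if_true, if_false, Function.update_self, ne_eq,
      not_false_eq_true, Function.update_of_ne, add_zero] at h ⊢
    intro h2
    apply h
    rw [← h2]
    abel
  · by_cases hv : v = d
    · subst hv
      simp only [hu, if_true, if_false, Function.update_self, ne_eq,
        not_false_eq_true, Function.update_of_ne, sub_zero] at h ⊢
      intro h2
      apply h
      rw [← h2]
      abel
    · simp only [hu, hv, if_false, ne_eq, not_false_eq_true, Function.update_of_ne, add_zero,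
        sub_zero] at h ⊢
      exact h

lemma deg_mv_le (d e : V) (γ : G) (cs : List (V × V × G)) (x : V) (_hxd : x ≠ d) (hxe : x ≠ e) :
    deg (cs.map (mv d e γ)) x ≤ deg cs x := by
  unfold deg
  rw [List.countP_map]
  apply List.countP_mono_left
  intro c _ hc
  have hc : (mv d e γ c).1 = x ∨ (mv d e γ c).2.1 = x := of_decide_eq_true hc
  apply decide_eq_true
  simp only [mv] at hc
  rcases hc with hc | hc
  · left
    by_cases h : c.1 = d
    · rw [if_pos h] at hc; exact absurd hc.symm hxe
    · rwa [if_neg h] at hc
  · right
    by_cases h : c.2.1 = d
    · rw [if_pos h] at hc; exact absurd hc.symm hxe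
    · rwa [if_neg h] at hc

omit [AddCommGroup G] in
lemma deg_filter_le (cs : List (V × V × G)) (q : V × V × G → Bool) (x : V) :
    deg (cs.filter q) x ≤ deg cs x := by
  unfold deg
  exact List.Sublist.countP_le List.filter_sublist

omit [AddCommGroup G] in
lemma exists_notin [Fintype G] [DecidableEq G] (L : List G) (h : L.length < Fintype.card G) :
    ∃ x : G, x ∉ L := by
  by_contra hcon
  push Not at hcon
  have h1 : (Finset.univ : Finset G) ⊆ L.toFinset := fun x _ => List.mem_toFinset.2 (hcon x)
  have h2 := Finset.card_le_card h1
  have h3 := List.toFinset_card_le L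
  rw [Finset.card_univ] at h2
  omega

theorem core [Fintype G] (k : ℕ) (hk : Fintype.card G = k + 2) (tp : V → Option (V × G)) :
    ∀ l : List V, l.Nodup → TOk tp l → ∀ cs : List (V × V × G),
      (∀ c ∈ cs, c.1 ∈ l ∧ c.2.1 ∈ l ∧ c.1 ≠ c.2.1) →
      (∀ c ∈ cs, deg cs c.1 ≤ k ∨ deg cs c.2.1 ≤ k) →
      ∃ φ : V → G, (∀ v ∈ l, ∀ p a, tp v = some (p, a) → φ v - φ p ≠ a) ∧
        ∀ c ∈ cs, φ c.1 - φ c.2.1 ≠ c.2.2 := by
  classical
  intro l
  induction l with
  | nil =>
    intro _ _ cs h1 _
    refine ⟨fun _ => 0, by simp, fun c hc => ?_⟩
    exact absurd (h1 c hc).1 (by simp)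
  | cons d l ih =>
    intro hnd htp cs hcs hdeg
    have hdl : d ∉ l := (List.nodup_cons.1 hnd).1
    have hl : l.Nodup := (List.nodup_cons.1 hnd).2
    have hne : ∀ v ∈ l, v ≠ d := fun v hv h => hdl (h ▸ hv)
    by_cases hd : deg cs d ≤ k
    · -- remove d
      obtain ⟨φ, hφ1, hφ2⟩ := ih hl htp.2 (cs.filter (fun c => decide (c.1 ≠ d ∧ c.2.1 ≠ d)))
        (by
          intro c hc
          rw [List.mem_filter] at hc
          obtain ⟨hc, hc2⟩ := hc
          have hc2 := of_decide_eq_true hc2
          obtain ⟨h1, h2, h3⟩ := hcs c hc
          exact ⟨(List.mem_cons.1 h1).resolve_left hc2.1, (List.mem_cons.1 h2).resolve_left hc2.2, h3⟩)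
        (by
          intro c hc
          rw [List.mem_filter] at hc
          rcases hdeg c hc.1 with h | h
          · exact Or.inl ((deg_filter_le _ _ _).trans h)
          · exact Or.inr ((deg_filter_le _ _ _).trans h))
      -- forbidden values
      let L1 : List G := match tp d with
        | none => []
        | some (p, a) => [φ p + a]
      let L2 : List G := (cs.filter (fun c => decide (c.1 = d ∨ c.2.1 = d))).map
        (fun c => if c.1 = d then c.2.2 + φ c.2.1 else φ c.1 - c.2.2)
      have hL1 : L1.length ≤ 1 := by
        simp only [L1]
        cases h : tp d <;> simp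
      have hL2 : L2.length ≤ k := by
        simp only [L2, List.length_map, ← List.countP_eq_length_filter]
        exact hd
      obtain ⟨x, hx⟩ := exists_notin (L1 ++ L2) (by rw [List.length_append, hk]; omega)
      rw [List.mem_append, not_or] at hx
      refine ⟨Function.update φ d x, ?_, ?_⟩
      · intro v hv p a hvp
        rcases List.mem_cons.1 hv with rfl | hv
        · have hp : p ∈ l := htp.1 p a hvp
          rw [Function.update_self, Function.update_of_ne (hne p hp)]
          intro h
          apply hx.1
          simp only [L1, hvp, List.mem_singleton]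
          rw [← h]
          abel
        · have hp : p ∈ l := htp.2.mem hv hvp
          rw [Function.update_of_ne (hne v hv), Function.update_of_ne (hne p hp)]
          exact hφ1 v hv p a hvp
      · intro c hc
        obtain ⟨h1, h2, h3⟩ := hcs c hc
        by_cases hcd : c.1 = d ∨ c.2.1 = d
        · have hmem : (if c.1 = d then c.2.2 + φ c.2.1 else φ c.1 - c.2.2) ∈ L2 := by
            simp only [L2]
            exact List.mem_map.2 ⟨c, List.mem_filter.2 ⟨hc, by simpa using hcd⟩, rfl⟩
          by_cases hu : c.1 = d
          · have hv : c.2.1 ≠ d := fun h => h3 (hu.trans h.symm)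
            rw [if_pos hu] at hmem
            rw [hu, Function.update_self, Function.update_of_ne hv]
            intro h
            apply hx.2
            have : x = c.2.2 + φ c.2.1 := by rw [← h]; abel
            rw [this]; exact hmem
          · have hv : c.2.1 = d := hcd.resolve_left hu
            rw [if_neg hu] at hmem
            rw [hv, Function.update_self, Function.update_of_ne hu]
            intro h
            apply hx.2
            have : x = φ c.1 - c.2.2 := by rw [← h]; abel
            rw [this]; exact hmem
        · rw [not_or] at hcd
          rw [Function.update_of_ne hcd.1, Function.update_of_ne hcd.2]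
          exact hφ2 c (List.mem_filter.2 ⟨hc, by simpa using hcd⟩)
    · -- d has large degree
      have hd' : k < deg cs d := not_le.1 hd
      obtain ⟨p, a, hpl, hpa⟩ : ∃ p a, p ∈ l ∧ ∀ p' a', tp d = some (p', a') → p' = p ∧ a' = a := by
        cases h : tp d with
        | some pa =>
          obtain ⟨p, a⟩ := pa
          exact ⟨p, a, htp.1 p a h, fun p' a' h' => by
            simp only [Option.some.injEq, Prod.mk.injEq] at h'
            exact ⟨h'.1.symm, h'.2.symm⟩⟩
        | none =>
          have : 0 < deg cs d := by omega
          unfold deg at this
          rw [List.countP_pos_iff] at this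
          obtain ⟨c, hc, hcd⟩ := this
          have hcd := of_decide_eq_true hcd
          obtain ⟨h1, h2, h3⟩ := hcs c hc
          rcases hcd with hcd | hcd
          · refine ⟨c.2.1, 0, (List.mem_cons.1 h2).resolve_left (fun h => h3 (hcd.trans h.symm)),
              fun p' a' h' => by simp at h'⟩
          · refine ⟨c.1, 0, (List.mem_cons.1 h1).resolve_left (fun h => h3 (h.trans hcd.symm)),
              fun p' a' h' => by simp at h'⟩
      have hpd : p ≠ d := hne p hpl
      -- neighbours of d have small degree
      have hnbr : ∀ c ∈ cs, (c.1 = d → deg cs c.2.1 ≤ k) ∧ (c.2.1 = d → deg cs c.1 ≤ k) := by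
        intro c hc
        constructor
        · intro h
          rcases hdeg c hc with h' | h'
          · rw [h] at h'; exact absurd h' hd
          · exact h'
        · intro h
          rcases hdeg c hc with h' | h'
          · exact h'
          · rw [h] at h'; exact absurd h' hd
      by_cases hB : ∃ c ∈ cs, (c.1 = p ∧ c.2.1 ≠ d ∧ k < deg cs c.2.1) ∨
          (c.2.1 = p ∧ c.1 ≠ d ∧ k < deg cs c.1)
      · -- merge d into a high neighbour e of p
        obtain ⟨e, γ, hel, hed, hek, hgam⟩ : ∃ e γ, e ∈ l ∧ e ≠ d ∧ k < deg cs e ∧
            ∀ φ : V → G, (∀ c ∈ cs, c.1 ≠ d → c.2.1 ≠ d → φ c.1 - φ c.2.1 ≠ c.2.2) →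
              φ e + γ - φ p ≠ a := by
          obtain ⟨c, hc, h | h⟩ := hB
          · obtain ⟨h1, h2, h3⟩ := h
            refine ⟨c.2.1, a + c.2.2, (List.mem_cons.1 (hcs c hc).2.1).resolve_left h2, h2, h3, ?_⟩
            intro φ hφ h4
            apply hφ c hc (by rw [h1]; exact hpd) h2
            rw [h1]
            have : φ c.2.1 + (a + c.2.2) - φ p - a = c.2.2 - (φ p - φ c.2.1) := by abel
            rw [h4, sub_self] at this
            exact (sub_eq_zero.1 this.symm).symm
          · obtain ⟨h1, h2, h3⟩ := h
            refine ⟨c.1, a - c.2.2, (List.mem_cons.1 (hcs c hc).1).resolve_left h2, h2, h3, ?_⟩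
            intro φ hφ h4
            apply hφ c hc h2 (by rw [h1]; exact hpd)
            rw [h1]
            have : φ c.1 + (a - c.2.2) - φ p - a = (φ c.1 - φ p) - c.2.2 := by abel
            rw [h4, sub_self] at this
            exact sub_eq_zero.1 this.symm
        have hde : d ≠ e := fun h => hed h.symm
        have hnbe : ∀ c ∈ cs, (c.1 = e → deg cs c.2.1 ≤ k) ∧ (c.2.1 = e → deg cs c.1 ≤ k) := by
          intro c hc
          constructor
          · intro h
            rcases hdeg c hc with h' | h'
            · rw [h] at h'; omega
            · exact h'
          · intro h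
            rcases hdeg c hc with h' | h'
            · exact h'
            · rw [h] at h'; omega
        obtain ⟨φ, hφ1, hφ2⟩ := ih hl htp.2 (cs.map (mv d e γ))
          (by
            intro c' hc'
            obtain ⟨c, hc, rfl⟩ := List.mem_map.1 hc'
            obtain ⟨h1, h2, h3⟩ := hcs c hc
            simp only [mv]
            refine ⟨?_, ?_, ?_⟩
            · split_ifs with h
              · exact hel
              · exact (List.mem_cons.1 h1).resolve_left h
            · split_ifs with h
              · exact hel
              · exact (List.mem_cons.1 h2).resolve_left h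
            · split_ifs with h h' h'
              · exact absurd (h.trans h'.symm) h3
              · intro h4
                have := (hnbr c hc).1 h
                rw [← h4] at this
                omega
              · intro h4
                have := (hnbr c hc).2 h'
                rw [h4] at this
                omega
              · exact h3)
          (by
            intro c' hc'
            obtain ⟨c, hc, rfl⟩ := List.mem_map.1 hc'
            obtain ⟨h1, h2, h3⟩ := hcs c hc
            simp only [mv]
            by_cases hu : c.1 = d ∨ c.1 = e
            · right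
              have hs : deg cs c.2.1 ≤ k := by
                rcases hu with hu | hu
                · exact (hnbr c hc).1 hu
                · exact (hnbe c hc).1 hu
              have h21d : c.2.1 ≠ d := fun h => by rw [h] at hs; omega
              have h21e : c.2.1 ≠ e := fun h => by rw [h] at hs; omega
              rw [if_neg h21d]
              exact (deg_mv_le d e γ cs _ h21d h21e).trans hs
            · rw [not_or] at hu
              by_cases hv : c.2.1 = d ∨ c.2.1 = e
              · left
                have hs : deg cs c.1 ≤ k := by
                  rcases hv with hv | hv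
                  · exact (hnbr c hc).2 hv
                  · exact (hnbe c hc).2 hv
                rw [if_neg hu.1]
                exact (deg_mv_le d e γ cs _ hu.1 hu.2).trans hs
              · rw [not_or] at hv
                rw [if_neg hu.1, if_neg hv.1]
                rcases hdeg c hc with h | h
                · exact Or.inl ((deg_mv_le d e γ cs _ hu.1 hu.2).trans h)
                · exact Or.inr ((deg_mv_le d e γ cs _ hv.1 hv.2).trans h))
        refine ⟨Function.update φ d (φ e + γ), ?_, ?_⟩
        · intro v hv q b hvq
          rcases List.mem_cons.1 hv with rfl | hv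
          · obtain ⟨rfl, rfl⟩ := hpa q b hvq
            rw [Function.update_self, Function.update_of_ne hpd]
            apply hgam φ
            intro c hc hc1 hc2
            have := hφ2 (mv v e γ c) (List.mem_map.2 ⟨c, hc, rfl⟩)
            simpa [mv, hc1, hc2] using this
          · have hq : q ∈ l := htp.2.mem hv hvq
            rw [Function.update_of_ne (hne v hv), Function.update_of_ne (hne q hq)]
            exact hφ1 v hv q b hvq
        · intro c hc
          exact mv_ok d e γ hde c φ (hφ2 _ (List.mem_map.2 ⟨c, hc, rfl⟩)) (hcs c hc).2.2
      · -- merge d into p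
        have hB' : ∀ c ∈ cs, (c.1 = p → c.2.1 ≠ d → deg cs c.2.1 ≤ k) ∧
            (c.2.1 = p → c.1 ≠ d → deg cs c.1 ≤ k) := by
          intro c hc
          constructor
          · intro h1 h2
            by_contra h3
            exact hB ⟨c, hc, Or.inl ⟨h1, h2, not_le.1 h3⟩⟩
          · intro h1 h2
            by_contra h3
            exact hB ⟨c, hc, Or.inr ⟨h1, h2, not_le.1 h3⟩⟩
        have hdp : d ≠ p := fun h => hpd h.symm
        let btw : V × V × G → Bool := fun c => decide ((c.1 = d ∧ c.2.1 = p) ∨ (c.1 = p ∧ c.2.1 = d))
        let L : List G := a :: (cs.filter btw).map (fun c => if c.1 = d then c.2.2 else -c.2.2)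
        have hlen : (cs.filter btw).length ≤ k := by
          by_cases hz : (cs.filter btw) = []
          · rw [hz]; simp
          · obtain ⟨c, hc⟩ := List.exists_mem_of_ne_nil _ hz
            rw [List.mem_filter] at hc
            obtain ⟨hc, hc2⟩ := hc
            have hc2 := of_decide_eq_true hc2
            have hpk : deg cs p ≤ k := by
              rcases hc2 with ⟨h1, h2⟩ | ⟨h1, h2⟩
              · rw [← h2]; exact (hnbr c hc).1 h1
              · rw [← h1]; exact (hnbr c hc).2 h2
            refine le_trans ?_ hpk
            unfold deg
            rw [← List.countP_eq_length_filter]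
            apply List.countP_mono_left
            intro c' _ h'
            have h' := of_decide_eq_true h'
            apply decide_eq_true
            rcases h' with ⟨h1, h2⟩ | ⟨h1, h2⟩
            · exact Or.inr h2
            · exact Or.inl h1
        obtain ⟨γ, hγ⟩ := exists_notin L (by
          simp only [L, List.length_cons, List.length_map]
          rw [hk]; omega)
        simp only [L, List.mem_cons, not_or, List.mem_map, not_exists, not_and] at hγ
        obtain ⟨hγa, hγb⟩ := hγ
        set cs' := (cs.filter (fun c => !(btw c))) with hcs'
        have hin : ∀ c ∈ cs', c ∈ cs ∧ ¬((c.1 = d ∧ c.2.1 = p) ∨ (c.1 = p ∧ c.2.1 = d)) := by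
          intro c hc
          rw [hcs', List.mem_filter] at hc
          refine ⟨hc.1, ?_⟩
          have := hc.2
          simp only [btw, Bool.not_eq_true', decide_eq_false_iff_not] at this
          exact this
        have hdd : ∀ x, deg cs' x ≤ deg cs x := fun x => deg_filter_le _ _ _
        obtain ⟨φ, hφ1, hφ2⟩ := ih hl htp.2 (cs'.map (mv d p γ))
          (by
            intro c' hc'
            obtain ⟨c, hc, rfl⟩ := List.mem_map.1 hc'
            obtain ⟨hc, hnb⟩ := hin c hc
            rw [not_or, not_and, not_and] at hnb
            obtain ⟨h1, h2, h3⟩ := hcs c hc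
            simp only [mv]
            refine ⟨?_, ?_, ?_⟩
            · split_ifs with h
              · exact hpl
              · exact (List.mem_cons.1 h1).resolve_left h
            · split_ifs with h
              · exact hpl
              · exact (List.mem_cons.1 h2).resolve_left h
            · split_ifs with h h' h'
              · exact absurd (h.trans h'.symm) h3
              · exact fun h4 => hnb.1 h h4.symm
              · exact fun h4 => hnb.2 h4 h'
              · exact h3)
          (by
            intro c' hc'
            obtain ⟨c, hc0, rfl⟩ := List.mem_map.1 hc'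
            obtain ⟨hc, hnb⟩ := hin c hc0
            rw [not_or, not_and, not_and] at hnb
            obtain ⟨h1, h2, h3⟩ := hcs c hc
            simp only [mv]
            have key : ∀ x, x ≠ d → x ≠ p → deg cs x ≤ k → deg (cs'.map (mv d p γ)) x ≤ k :=
              fun x hx1 hx2 hx3 => (deg_mv_le d p γ cs' x hx1 hx2).trans ((hdd x).trans hx3)
            by_cases hu : c.1 = d ∨ c.1 = p
            · right
              have h21d : c.2.1 ≠ d := by
                rcases hu with hu | hu
                · exact fun h => h3 (hu.trans h.symm)
                · exact hnb.2 hu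
              have h21p : c.2.1 ≠ p := by
                rcases hu with hu | hu
                · exact hnb.1 hu
                · exact fun h => h3 (hu.trans h.symm)
              have hs : deg cs c.2.1 ≤ k := by
                rcases hu with hu | hu
                · exact (hnbr c hc).1 hu
                · exact (hB' c hc).1 hu h21d
              rw [if_neg h21d]
              exact key _ h21d h21p hs
            · rw [not_or] at hu
              by_cases hv : c.2.1 = d ∨ c.2.1 = p
              · left
                have hs : deg cs c.1 ≤ k := by
                  rcases hv with hv | hv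
                  · exact (hnbr c hc).2 hv
                  · exact (hB' c hc).2 hv hu.1
                rw [if_neg hu.1]
                exact key _ hu.1 hu.2 hs
              · rw [not_or] at hv
                rw [if_neg hu.1, if_neg hv.1]
                rcases hdeg c hc with h | h
                · exact Or.inl (key _ hu.1 hu.2 h)
                · exact Or.inr (key _ hv.1 hv.2 h))
        refine ⟨Function.update φ d (φ p + γ), ?_, ?_⟩
        · intro v hv q b hvq
          rcases List.mem_cons.1 hv with rfl | hv
          · obtain ⟨rfl, rfl⟩ := hpa q b hvq
            rw [Function.update_self, Function.update_of_ne hpd]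
            intro h
            apply hγa
            rw [← h]; abel
          · have hq : q ∈ l := htp.2.mem hv hvq
            rw [Function.update_of_ne (hne v hv), Function.update_of_ne (hne q hq)]
            exact hφ1 v hv q b hvq
        · intro c hc
          by_cases hb : (c.1 = d ∧ c.2.1 = p) ∨ (c.1 = p ∧ c.2.1 = d)
          · have hbt : btw c = true := by simpa [btw] using hb
            have := hγb c (List.mem_filter.2 ⟨hc, hbt⟩)
            rcases hb with ⟨h1, h2⟩ | ⟨h1, h2⟩
            · rw [if_pos h1] at this
              rw [h1, h2, Function.update_self, Function.update_of_ne hpd]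
              intro h
              apply this
              rw [← h]; abel
            · rw [if_neg (by rw [h1]; exact hpd)] at this
              rw [h1, h2, Function.update_self, Function.update_of_ne hpd]
              intro h
              apply this
              rw [← h]; abel
          · have hm : c ∈ cs' := by
              rw [hcs']
              refine List.mem_filter.2 ⟨hc, ?_⟩
              simp only [btw, Bool.not_eq_true', decide_eq_false_iff_not]
              exact hb
            exact mv_ok d p γ hdp c φ (hφ2 _ (List.mem_map.2 ⟨c, hm, rfl⟩)) (hcs c hc).2.2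

end Pool.Agent.Helper24.Tar
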