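import Mathlib
import Pool.Agent.Helper24.Tar.Core

set_option autoImplicit false

namespace Pool.Agent.Helper24.Tar

open SimpleGraph

/-- every nonempty finite set has a vertex with at most one neighbour inside -/
def D1 {V : Type*} (T : SimpleGraph V) : Prop :=
  ∀ S : Finset V, S.Nonempty → ∃ v ∈ S, ∀ w ∈ S, ∀ w' ∈ S, T.Adj v w → T.Adj v w' → w = w'

/-- every edge has an end whose only neighbour is the other end -/
def StarLike {V : Type*} (F : SimpleGraph V) : Prop :=
  ∀ u v, F.Adj u v → (∀ w, F.Adj u w → w = v) ∨ (∀ w, F.Adj v w → w = u)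

lemma acyclic_exists {V : Type*} [Finite V] [Nonempty V] {T : SimpleGraph V} (h : T.IsAcyclic) :
    ∃ v, ∀ w w', T.Adj v w → T.Adj v w' → w = w' := by
  obtain ⟨u, v, p, hp, hmax⟩ := Walk.exists_isPath_forall_isPath_length_le_length T
  refine ⟨u, ?_⟩
  have key : ∀ w, T.Adj u w → w = p.snd := by
    intro w hw
    by_cases hw2 : w ∈ p.support
    · apply h.eq_snd_of_adj_start hp hw hw2
    · exfalso
      have h1 : (p.cons hw.symm).IsPath := by
        rw [Walk.cons_isPath_iff]
        exact ⟨hp, hw2⟩
      have h2 := hmax _ _ _ h1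
      rw [Walk.length_cons] at h2
      omega
  intro w w' hw hw'
  rw [key w hw, key w' hw']

lemma acyclic_D1 {V : Type*} {T : SimpleGraph V} (h : T.IsAcyclic) : D1 T := by
  intro S hS
  have : Nonempty (S : Set V) := by
    obtain ⟨x, hx⟩ := hS
    exact ⟨⟨x, hx⟩⟩
  have : Finite (S : Set V) := S.finite_toSet
  obtain ⟨v, hv⟩ := acyclic_exists (h.induce (S : Set V))
  refine ⟨v.1, v.2, ?_⟩
  intro w hw w' hw' h1 h2
  have := hv ⟨w, hw⟩ ⟨w', hw'⟩ (by simpa using h1) (by simpa using h2)
  exact congrArg Subtype.val this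

lemma star_D1 {V : Type*} {F : SimpleGraph V} (h : StarLike F) : D1 F := by
  intro S hS
  by_contra hcon
  push Not at hcon
  obtain ⟨x, hx⟩ := hS
  obtain ⟨w, hw, w', hw', h1, h2, h3⟩ := hcon x hx
  rcases h x w h1 with h4 | h4
  · exact h3 (h4 w' h2).symm
  · obtain ⟨y, _, y', _, h5, h6, h7⟩ := hcon w hw
    exact h7 ((h4 y h5).trans (h4 y' h6).symm)

lemma D1.induce {V : Type*} {T : SimpleGraph V} (h : D1 T) (A : Set V) : D1 (T.induce A) := by
  classical
  intro S hS
  obtain ⟨v, hv, hv2⟩ := h (S.map (Function.Embedding.subtype _)) (hS.map)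
  rw [Finset.mem_map] at hv
  obtain ⟨v', hv', rfl⟩ := hv
  refine ⟨v', hv', ?_⟩
  intro w hw w' hw' h1 h2
  apply Subtype.ext
  apply hv2 w.1 _ w'.1 _ (by simpa using h1) (by simpa using h2)
  · exact Finset.mem_map.2 ⟨w, hw, rfl⟩
  · exact Finset.mem_map.2 ⟨w', hw', rfl⟩

lemma StarLike.induce {V : Type*} {F : SimpleGraph V} (h : StarLike F) (A : Set V) :
    StarLike (F.induce A) := by
  intro u v huv
  have huv' : F.Adj u.1 v.1 := by simpa using huv
  rcases h u.1 v.1 huv' with h1 | h1
  · left; intro w hw; exact Subtype.ext (h1 w.1 (by simpa using hw))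
  · right; intro w hw; exact Subtype.ext (h1 w.1 (by simpa using hw))

lemma TOk_congr {V G : Type*} {tp tp' : V → Option (V × G)} {l : List V}
    (h : ∀ v ∈ l, tp v = tp' v) (h2 : TOk tp l) : TOk tp' l := by
  induction l with
  | nil => trivial
  | cons d l ih =>
    refine ⟨?_, ih (fun v hv => h v (List.mem_cons_of_mem _ hv)) h2.2⟩
    intro p a hp
    rw [← h d List.mem_cons_self] at hp
    exact h2.1 p a hp

lemma exists_order {V : Type*} [DecidableEq V] (G : Type*) [Zero G] {T : SimpleGraph V}
    (hT : D1 T) : ∀ (n : ℕ) (S : Finset V), S.card = n →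
    ∃ (l : List V) (tp : V → Option (V × G)), l.Nodup ∧ (∀ v, v ∈ l ↔ v ∈ S) ∧ TOk tp l ∧
      ∀ u ∈ S, ∀ v ∈ S, T.Adj u v → tp u = some (v, 0) ∨ tp v = some (u, 0) := by
  classical
  intro n
  induction n with
  | zero =>
    intro S hS
    rw [Finset.card_eq_zero] at hS
    subst hS
    exact ⟨[], fun _ => none, List.nodup_nil, by simp, trivial, by simp⟩
  | succ n ih =>
    intro S hS
    have hne : S.Nonempty := by rw [← Finset.card_pos]; omega
    obtain ⟨v, hv, hv2⟩ := hT S hne
    obtain ⟨l, tp, h1, h2, h3, h4⟩ := ih (S.erase v) (by rw [Finset.card_erase_of_mem hv]; omega)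
    have hvl : v ∉ l := by rw [h2]; simp
    by_cases hw : ∃ w ∈ S, T.Adj v w
    · obtain ⟨w, hw, hvw⟩ := hw
      have hwl : w ∈ l := by
        rw [h2, Finset.mem_erase]
        exact ⟨hvw.ne', hw⟩
      refine ⟨v :: l, Function.update tp v (some (w, 0)), List.nodup_cons.2 ⟨hvl, h1⟩, ?_, ?_, ?_⟩
      · intro x
        rw [List.mem_cons, h2, Finset.mem_erase]
        by_cases hx : x = v
        · subst hx; simp [hv]
        · simp [hx]
      · refine ⟨?_, TOk_congr (fun x hx => ?_) h3⟩
        · intro p a hp
          rw [Function.update_self] at hp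
          simp only [Option.some.injEq, Prod.mk.injEq] at hp
          rw [← hp.1]; exact hwl
        · rw [Function.update_of_ne (fun h : x = v => hvl (h ▸ hx))]
      · intro x hx y hy hxy
        by_cases hxv : x = v
        · left
          have : y = w := hv2 y hy w hw (hxv ▸ hxy) hvw
          rw [hxv, this, Function.update_self]
        · by_cases hyv : y = v
          · right
            have : x = w := hv2 x hx w hw (hyv ▸ hxy.symm) hvw
            rw [hyv, this, Function.update_self]
          · rw [Function.update_of_ne hxv, Function.update_of_ne hyv]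
            exact h4 x (Finset.mem_erase.2 ⟨hxv, hx⟩) y (Finset.mem_erase.2 ⟨hyv, hy⟩) hxy
    · push Not at hw
      refine ⟨v :: l, Function.update tp v none, List.nodup_cons.2 ⟨hvl, h1⟩, ?_, ?_, ?_⟩
      · intro x
        rw [List.mem_cons, h2, Finset.mem_erase]
        by_cases hx : x = v
        · subst hx; simp [hv]
        · simp [hx]
      · refine ⟨?_, TOk_congr (fun x hx => ?_) h3⟩
        · intro p a hp
          rw [Function.update_self] at hp
          simp at hp
        · rw [Function.update_of_ne (fun h : x = v => hvl (h ▸ hx))]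
      · intro x hx y hy hxy
        by_cases hxv : x = v
        · exact absurd (hxv ▸ hxy) (hw y hy)
        · by_cases hyv : y = v
          · exact absurd (hyv ▸ hxy.symm) (hw x hx)
          · rw [Function.update_of_ne hxv, Function.update_of_ne hyv]
            exact h4 x (Finset.mem_erase.2 ⟨hxv, hx⟩) y (Finset.mem_erase.2 ⟨hyv, hy⟩) hxy

/-- forest plus a graph whose vertices of degree larger than k are independent -/
theorem union_colorable {V : Type*} [Finite V] {T H : SimpleGraph V} (hT : D1 T) (k : ℕ)
    (hH : ∀ u v, H.Adj u v →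
      ({w | H.Adj u w} : Set V).ncard ≤ k ∨ ({w | H.Adj v w} : Set V).ncard ≤ k) :
    (T ⊔ H).Colorable (k + 2) := by
  classical
  have := Fintype.ofFinite V
  obtain ⟨l, tp, h1, h2, h3, h4⟩ := exists_order (ZMod (k + 2)) hT _ Finset.univ rfl
  let f : Sym2 V → V × V × ZMod (k + 2) := fun e => (e.out.1, e.out.2, 0)
  let cs : List (V × V × ZMod (k + 2)) := H.edgeFinset.toList.map f
  have hout : ∀ e : Sym2 V, s(e.out.1, e.out.2) = e := fun e => e.out_eq
  have hdeg : ∀ x, deg cs x ≤ ({w | H.Adj x w} : Set V).ncard := by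
    intro x
    have e1 : deg cs x = (H.incidenceFinset x).card := by
      unfold deg
      simp only [cs]
      rw [List.countP_map, H.incidenceFinset_eq_filter, Finset.card_def, Finset.filter_val,
        ← Multiset.countP_eq_card_filter, ← Finset.coe_toList, Multiset.coe_countP]
      apply List.countP_congr
      intro e _
      have h5 : (x ∈ e) ↔ (e.out.1 = x ∨ e.out.2 = x) := by
        conv_lhs => rw [← hout e]
        rw [Sym2.mem_iff]
        constructor
        · rintro (h | h)
          · exact Or.inl h.symm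
          · exact Or.inr h.symm
        · rintro (h | h)
          · exact Or.inl h.symm
          · exact Or.inr h.symm
      simp only [Function.comp_apply, f, decide_eq_true_eq]
      exact h5.symm
    rw [e1, H.card_incidenceFinset_eq_degree, ← H.card_neighborFinset_eq_degree,
      Set.ncard_eq_toFinset_card']
    apply le_of_eq
    congr 1
  obtain ⟨φ, hφ1, hφ2⟩ := core k (ZMod.card (k + 2)) tp l h1 h3 cs
    (by
      intro c hc
      simp only [cs, List.mem_map, Finset.mem_toList] at hc
      obtain ⟨e, he, rfl⟩ := hc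
      refine ⟨(h2 _).2 (Finset.mem_univ _), (h2 _).2 (Finset.mem_univ _), ?_⟩
      have : H.Adj e.out.1 e.out.2 := by
        rw [← SimpleGraph.mem_edgeSet, hout e]
        exact SimpleGraph.mem_edgeFinset.1 he
      exact this.ne)
    (by
      intro c hc
      simp only [cs, List.mem_map, Finset.mem_toList] at hc
      obtain ⟨e, he, rfl⟩ := hc
      have : H.Adj e.out.1 e.out.2 := by
        rw [← SimpleGraph.mem_edgeSet, hout e]
        exact SimpleGraph.mem_edgeFinset.1 he
      rcases hH _ _ this with h | h
      · exact Or.inl ((hdeg _).trans h)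
      · exact Or.inr ((hdeg _).trans h))
  have hadj : ∀ u v, (T ⊔ H).Adj u v → φ u ≠ φ v := by
    intro u v huv
    rcases huv with huv | huv
    · rcases h4 u (Finset.mem_univ _) v (Finset.mem_univ _) huv with h | h
      · have := hφ1 u ((h2 _).2 (Finset.mem_univ _)) v 0 h
        exact fun h5 => this (sub_eq_zero.2 h5)
      · have := hφ1 v ((h2 _).2 (Finset.mem_univ _)) u 0 h
        exact fun h5 => this (sub_eq_zero.2 h5.symm)
    · have hmem : f s(u, v) ∈ cs := by
        simp only [cs, List.mem_map, Finset.mem_toList]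
        exact ⟨s(u, v), SimpleGraph.mem_edgeFinset.2 huv, rfl⟩
      have := hφ2 _ hmem
      simp only [f] at this
      have h5 : s((s(u, v) : Sym2 V).out.1, (s(u, v) : Sym2 V).out.2) = s(u, v) := hout _
      rw [Sym2.eq_iff] at h5
      rcases h5 with ⟨h6, h7⟩ | ⟨h6, h7⟩
      · rw [h6, h7] at this
        exact fun h8 => this (sub_eq_zero.2 h8)
      · rw [h6, h7] at this
        exact fun h8 => this (sub_eq_zero.2 h8.symm)
  have hcol := (SimpleGraph.Coloring.mk φ (fun {u v} h => hadj u v h) :
    (T ⊔ H).Coloring (ZMod (k + 2))).colorable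
  rwa [ZMod.card] at hcol

/-- colour the two sides of a vertex partition with disjoint palettes -/
lemma glue {V : Type*} {G : SimpleGraph V} (P : Set V) {a b : ℕ}
    (h1 : (G.induce P).Colorable a) (h2 : (G.induce Pᶜ).Colorable b) : G.Colorable (a + b) := by
  classical
  obtain ⟨c1⟩ := h1
  obtain ⟨c2⟩ := h2
  have C : G.Coloring (Fin a ⊕ Fin b) := SimpleGraph.Coloring.mk
    (fun v => if h : v ∈ P then Sum.inl (c1 ⟨v, h⟩) else Sum.inr (c2 ⟨v, h⟩)) (by
      intro u v huv
      by_cases hu : u ∈ P
      · by_cases hv : v ∈ P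
        · rw [dif_pos hu, dif_pos hv]
          intro h
          exact c1.valid (v := ⟨u, hu⟩) (w := ⟨v, hv⟩) (by simpa using huv) (Sum.inl_injective h)
        · rw [dif_pos hu, dif_neg hv]
          simp
      · by_cases hv : v ∈ P
        · rw [dif_neg hu, dif_pos hv]
          simp
        · rw [dif_neg hu, dif_neg hv]
          intro h
          exact c2.valid (v := ⟨u, hu⟩) (w := ⟨v, hv⟩) (by simpa using huv) (Sum.inr_injective h))
  have := C.colorable
  simpa using this

/-- a 2-degenerate graph splits into an independent set and an induced forest -/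
lemma kernel {V : Type*} {H : SimpleGraph V}
    (hH : ∀ S : Finset V, S.Nonempty →
      ∃ v ∈ S, ({w : V | w ∈ S ∧ H.Adj v w} : Set V).ncard ≤ 2) :
    ∀ (n : ℕ) (A : Finset V), A.card = n → ∃ P : Finset V, P ⊆ A ∧
      (∀ u ∈ P, ∀ v ∈ P, ¬ H.Adj u v) ∧
      ∀ S : Finset V, S ⊆ A → (∀ v ∈ S, v ∉ P) → S.Nonempty →
        ∃ v ∈ S, ∀ w ∈ S, ∀ w' ∈ S, H.Adj v w → H.Adj v w' → w = w' := by
  classical
  intro n
  induction n with
  | zero =>
    intro A hA
    rw [Finset.card_eq_zero] at hA
    subst hA
    refine ⟨∅, by simp, by simp, ?_⟩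
    intro S hS _ hne
    rw [Finset.subset_empty] at hS
    subst hS
    simp at hne
  | succ n ih =>
    intro A hA
    obtain ⟨v, hv, hv2⟩ := hH A (by rw [← Finset.card_pos]; omega)
    obtain ⟨P, hPA, hP1, hP2⟩ := ih (A.erase v) (by rw [Finset.card_erase_of_mem hv]; omega)
    have hvP : v ∉ P := fun h => by simpa using hPA h
    by_cases hn : ∃ u ∈ P, H.Adj v u
    · obtain ⟨u, hu, hvu⟩ := hn
      refine ⟨P, hPA.trans (Finset.erase_subset _ _), hP1, ?_⟩
      intro S hS hSP hne
      by_cases hvS : v ∈ S
      · refine ⟨v, hvS, ?_⟩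
        intro w hw w' hw' h1 h2
        by_contra hww
        have hsub : (({u, w, w'} : Finset V) : Set V) ⊆ {x : V | x ∈ A ∧ H.Adj v x} := by
          intro x hx
          simp only [Finset.coe_insert, Finset.coe_singleton, Set.mem_insert_iff,
            Set.mem_singleton_iff] at hx
          rcases hx with rfl | rfl | rfl
          · exact ⟨Finset.erase_subset _ _ (hPA hu), hvu⟩
          · exact ⟨hS hw, h1⟩
          · exact ⟨hS hw', h2⟩
        have hfin : ({x : V | x ∈ A ∧ H.Adj v x} : Set V).Finite :=
          A.finite_toSet.subset (fun x hx => hx.1)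
        have h3 := Set.ncard_le_ncard hsub hfin
        rw [Set.ncard_coe_finset] at h3
        have h4 : ({u, w, w'} : Finset V).card = 3 := by
          rw [Finset.card_eq_three]
          refine ⟨u, w, w', ?_, ?_, hww, rfl⟩
          · exact fun h => hSP w hw (h ▸ hu)
          · exact fun h => hSP w' hw' (h ▸ hu)
        omega
      · exact hP2 S (fun x hx => Finset.mem_erase.2 ⟨fun h => hvS (h ▸ hx), hS hx⟩) hSP hne
    · push Not at hn
      refine ⟨insert v P, ?_, ?_, ?_⟩
      · intro x hx
        rcases Finset.mem_insert.1 hx with rfl | hx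
        · exact hv
        · exact Finset.erase_subset _ _ (hPA hx)
      · intro x hx y hy hxy
        rcases Finset.mem_insert.1 hx with hx1 | hx1
        · rcases Finset.mem_insert.1 hy with hy1 | hy1
          · exact hxy.ne (hx1.trans hy1.symm)
          · rw [hx1] at hxy
            exact hn y hy1 hxy
        · rcases Finset.mem_insert.1 hy with hy1 | hy1
          · rw [hy1] at hxy
            exact hn x hx1 hxy.symm
          · exact hP1 x hx1 y hy1 hxy
      · intro S hS hSP hne
        refine hP2 S ?_ (fun x hx h => hSP x hx (Finset.mem_insert_of_mem h)) hne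
        intro x hx
        refine Finset.mem_erase.2 ⟨?_, hS hx⟩
        rintro rfl
        exact hSP x hx (Finset.mem_insert_self _ _)

/-- star forest plus a graph that splits into an independent set and a forest -/
theorem star_part {V : Type*} [Finite V] {F H : SimpleGraph V} (hF : StarLike F) (P : Set V)
    (hP : ∀ u ∈ P, ∀ v ∈ P, ¬ H.Adj u v) (hQ : D1 (H.induce Pᶜ)) : (F ⊔ H).Colorable 5 := by
  refine glue (a := 2) (b := 3) P ?_ ?_
  · have h := union_colorable (T := F.induce P) (H := (⊥ : SimpleGraph P))
      ((star_D1 hF).induce P) 0 (fun u v h => h.elim)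
    refine h.mono_left ?_
    intro u v huv
    left
    rcases huv with huv | huv
    · exact huv
    · exact absurd huv (hP u.1 u.2 v.1 v.2)
  · have h := union_colorable (T := H.induce Pᶜ) (H := F.induce Pᶜ) hQ 1 (by
      intro u v huv
      rcases (hF.induce Pᶜ) u v huv with h | h
      · left
        have : ({w | (F.induce Pᶜ).Adj u w} : Set _) ⊆ {v} := fun w hw => h w hw
        exact (Set.ncard_le_ncard this (Set.finite_singleton _)).trans (by simp)
      · right
        have : ({w | (F.induce Pᶜ).Adj v w} : Set _) ⊆ {u} := fun w hw => h w hw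
        exact (Set.ncard_le_ncard this (Set.finite_singleton _)).trans (by simp))
    refine h.mono_left ?_
    intro u v huv
    rcases huv with huv | huv
    · right; exact huv
    · left; exact huv

/-- forest plus a graph that splits into an independent set and a star forest -/
theorem forest_part {V : Type*} [Finite V] {F H : SimpleGraph V} (hF : D1 F) (P : Set V)
    (hP : ∀ u ∈ P, ∀ v ∈ P, ¬ H.Adj u v) (hQ : StarLike (H.induce Pᶜ)) :
    (F ⊔ H).Colorable 5 := by
  refine glue (a := 2) (b := 3) P ?_ ?_
  · have h := union_colorable (T := F.induce P) (H := (⊥ : SimpleGraph P))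
      (hF.induce P) 0 (fun u v h => h.elim)
    refine h.mono_left ?_
    intro u v huv
    left
    rcases huv with huv | huv
    · exact huv
    · exact absurd huv (hP u.1 u.2 v.1 v.2)
  · have h := union_colorable (T := F.induce Pᶜ) (H := H.induce Pᶜ) (hF.induce _) 1 (by
      intro u v huv
      rcases hQ u v huv with h | h
      · left
        have : ({w | (H.induce Pᶜ).Adj u w} : Set _) ⊆ {v} := fun w hw => h w hw
        exact (Set.ncard_le_ncard this (Set.finite_singleton _)).trans (by simp)
      · right
        have : ({w | (H.induce Pᶜ).Adj v w} : Set _) ⊆ {u} := fun w hw => h w hw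
        exact (Set.ncard_le_ncard this (Set.finite_singleton _)).trans (by simp))
    refine h.mono_left ?_
    intro u v huv
    rcases huv with huv | huv
    · left; exact huv
    · right; exact huv

/-- Tarsi's question for star forests -/
theorem star_main {V : Type*} [Finite V] {F H : SimpleGraph V} (hF : StarLike F)
    (hH : ∀ S : Finset V, S.Nonempty →
      ∃ v ∈ S, ({w : V | w ∈ S ∧ H.Adj v w} : Set V).ncard ≤ 2) : (F ⊔ H).Colorable 5 := by
  classical
  have := Fintype.ofFinite V
  obtain ⟨P, _, h1, h2⟩ := kernel hH _ Finset.univ rfl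
  refine star_part hF (P : Set V) (fun u hu v hv => h1 u hu v hv) ?_
  intro S hS
  obtain ⟨v, hv, hv2⟩ := h2 (S.map (Function.Embedding.subtype _)) (Finset.subset_univ _)
    (by
      intro v hv
      rw [Finset.mem_map] at hv
      obtain ⟨v', _, rfl⟩ := hv
      exact v'.2) hS.map
  rw [Finset.mem_map] at hv
  obtain ⟨v', hv', rfl⟩ := hv
  refine ⟨v', hv', ?_⟩
  intro w hw w' hw' h3 h4
  apply Subtype.ext
  apply hv2 w.1 _ w'.1 _ (by simpa using h3) (by simpa using h4)
  · exact Finset.mem_map.2 ⟨w, hw, rfl⟩
  · exact Finset.mem_map.2 ⟨w', hw', rfl⟩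

end Pool.Agent.Helper24.Tar
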